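import Mathlib

/-!
# Project TA (MP_d629b1_an): algebraic real 2 x 2 matrices
-/

set_option autoImplicit false

open scoped Matrix

noncomputable section

namespace Pool.Agent.Helper71.TA

/-- The field of the real algebraic numbers. -/
abbrev F : IntermediateField ℚ ℝ := algebraicClosure ℚ ℝ

lemma mem_F {x : ℝ} : x ∈ F ↔ IsAlgebraic ℚ x := mem_algebraicClosure_iff

lemma ratF (q : ℚ) : (q : ℝ) ∈ F := F.algebraMap_mem q

lemma intF (q : ℤ) : (q : ℝ) ∈ F := by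
  have := ratF (q : ℚ)
  rwa [Rat.cast_intCast] at this

/-- Two real numbers whose products are rational combinations of `1` and themselves. -/
lemma alg3 {s t : ℝ} {ρ a0 a1 a2 b0 b1 b2 c0 c1 c2 : ℚ} (hρ : ρ ≠ 0)
    (h1 : (ρ : ℝ) * (s * s) = a0 + a1 * s + a2 * t)
    (h2 : (ρ : ℝ) * (s * t) = b0 + b1 * s + b2 * t)
    (h3 : (ρ : ℝ) * (t * t) = c0 + c1 * s + c2 * t) : s ∈ F ∧ t ∈ F := by
  have hρ' : (ρ : ℝ) ≠ 0 := by exact_mod_cast hρ
  set N : Submodule ℚ ℝ := Submodule.span ℚ {1, s, t} with hN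
  have m1 : (1 : ℝ) ∈ N := Submodule.subset_span (by simp)
  have ms : s ∈ N := Submodule.subset_span (by simp)
  have mt : t ∈ N := Submodule.subset_span (by simp)
  have comb : ∀ (x y z : ℚ), (x : ℝ) + y * s + z * t ∈ N := by
    intro x y z
    have e : (x : ℝ) + y * s + z * t = x • (1 : ℝ) + y • s + z • t := by
      simp [Rat.smul_def]
    rw [e]
    exact N.add_mem (N.add_mem (N.smul_mem _ m1) (N.smul_mem _ ms)) (N.smul_mem _ mt)
  have div : ∀ (w : ℝ) (x y z : ℚ), (ρ : ℝ) * w = x + y * s + z * t → w ∈ N := by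
    intro w x y z h
    have e : w = ρ⁻¹ • ((x : ℝ) + y * s + z * t) := by
      rw [← h, Rat.smul_def]
      push_cast
      field_simp
    rw [e]
    exact N.smul_mem _ (comb x y z)
  have hss := div _ _ _ _ h1
  have hst := div _ _ _ _ h2
  have htt := div _ _ _ _ h3
  have hN0 : N ≠ ⊥ := by
    intro h
    rw [h] at m1
    exact one_ne_zero ((Submodule.mem_bot ℚ).1 m1)
  have hfg : N.FG := ⟨{1, s, t}, by simp [hN]⟩
  have key : ∀ w : ℝ, w * 1 ∈ N → w * s ∈ N → w * t ∈ N → w ∈ F := by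
    intro w k1 k2 k3
    rw [mem_F]
    refine (isIntegral_of_smul_mem_submodule N hN0 hfg w ?_).isAlgebraic
    intro n hn
    rw [hN] at hn
    induction hn using Submodule.span_induction with
    | mem x hx =>
      simp only [Set.mem_insert_iff, Set.mem_singleton_iff] at hx
      rcases hx with rfl | rfl | rfl
      · exact k1
      · exact k2
      · exact k3
    | zero => rw [smul_zero]; exact N.zero_mem
    | add x y _ _ hx hy => rw [smul_add]; exact N.add_mem hx hy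
    | smul a x _ hx => rw [smul_comm]; exact N.smul_mem _ hx
  refine ⟨key s (by rwa [mul_one]) hss hst, key t (by rwa [mul_one]) (by rwa [mul_comm]) htt⟩

/-- Coefficients of the powers of a root of `x ^ 2 - τ x + δ`. -/
def pq {R : Type} [CommRing R] (τ δ : R) : ℕ → R × R
  | 0 => (0, 1)
  | k + 1 => (τ * (pq τ δ k).1 + (pq τ δ k).2, -(δ * (pq τ δ k).1))

lemma pq_zero {R : Type} [CommRing R] (τ δ : R) : pq τ δ 0 = (0, 1) := by rw [pq]

lemma pq_succ {R : Type} [CommRing R] (τ δ : R) (k : ℕ) :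
    pq τ δ (k + 1) = (τ * (pq τ δ k).1 + (pq τ δ k).2, -(δ * (pq τ δ k).1)) := by rw [pq]

lemma pow_root {R : Type} [CommRing R] {τ δ μ : R} (h : μ ^ 2 = τ * μ - δ) (k : ℕ) :
    μ ^ k = (pq τ δ k).1 * μ + (pq τ δ k).2 := by
  induction k with
  | zero => simp [pq_zero]
  | succ k ih =>
    rw [pow_succ, ih, pq_succ]
    linear_combination (pq τ δ k).1 * h

lemma pq_map (τ δ : ℝ) (k : ℕ) :
    (pq (τ : ℂ) (δ : ℂ) k).1 = ((pq τ δ k).1 : ℝ) ∧ (pq (τ : ℂ) (δ : ℂ) k).2 = ((pq τ δ k).2 : ℝ) := by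
  induction k with
  | zero => simp [pq_zero]
  | succ k ih => simp [pq_succ, ih.1, ih.2]

lemma pq_F {τ δ : ℝ} (hτ : τ ∈ F) (hδ : δ ∈ F) (k : ℕ) : (pq τ δ k).1 ∈ F ∧ (pq τ δ k).2 ∈ F := by
  induction k with
  | zero => simp [pq_zero, F.zero_mem, F.one_mem]
  | succ k ih =>
    rw [pq_succ]
    exact ⟨F.add_mem (F.mul_mem hτ ih.1) ih.2, F.neg_mem (F.mul_mem hδ ih.1)⟩

/-- Cayley and Hamilton. -/
lemma sq_mat (B : Matrix (Fin 2) (Fin 2) ℝ) : B ^ 2 = B.trace • B - B.det • 1 := by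
  ext i j
  fin_cases i <;> fin_cases j <;>
    simp [pow_two, Matrix.mul_apply, Fin.sum_univ_two, Matrix.trace_fin_two, Matrix.det_fin_two] <;>
    ring

lemma pow_mat (B : Matrix (Fin 2) (Fin 2) ℝ) (k : ℕ) :
    B ^ k = (pq B.trace B.det k).1 • B + (pq B.trace B.det k).2 • (1 : Matrix (Fin 2) (Fin 2) ℝ) := by
  induction k with
  | zero => simp [pq_zero]
  | succ k ih =>
    rw [pow_succ, ih, pq_succ, add_mul, smul_mul_assoc, smul_mul_assoc, one_mul, ← pow_two, sq_mat]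
    simp only [smul_sub, smul_smul, add_smul, neg_smul]
    rw [mul_comm (pq B.trace B.det k).1 B.trace, mul_comm (pq B.trace B.det k).1 B.det]
    abel

lemma roots (τ δ : ℝ) : ∃ μ ν : ℂ, μ + ν = τ ∧ μ * ν = δ ∧ μ ^ 2 = τ * μ - δ ∧ ν ^ 2 = τ * ν - δ := by
  obtain ⟨z, hz⟩ := IsAlgClosed.exists_pow_nat_eq ((τ : ℂ) ^ 2 - 4 * δ) (n := 2) (by norm_num)
  refine ⟨(τ + z) / 2, (τ - z) / 2, by ring, ?_, ?_, ?_⟩
  · linear_combination (-1 / 4) * hz
  · linear_combination (1 / 4) * hz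
  · linear_combination (1 / 4) * hz

lemma ofReal_F {x : ℝ} (h : IsAlgebraic ℚ (x : ℂ)) : x ∈ F := by
  rw [mem_F]
  exact (isAlgebraic_algebraMap_iff (A := ℂ) (algebraMap ℝ ℂ).injective).1 h

lemma of_mem_F {x : ℝ} (h : x ∈ F) : IsAlgebraic ℚ (x : ℂ) := by
  rw [mem_F] at h
  exact (isAlgebraic_algebraMap_iff (A := ℂ) (algebraMap ℝ ℂ).injective).2 h

lemma tr_det_of_roots {τ δ : ℝ} (h : ∀ μ : ℂ, μ ^ 2 = τ * μ - δ → IsAlgebraic ℚ μ) :
    τ ∈ F ∧ δ ∈ F := by
  obtain ⟨μ, ν, h1, h2, h3, h4⟩ := roots τ δ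
  have hμ := h μ h3
  have hν := h ν h4
  refine ⟨ofReal_F ?_, ofReal_F ?_⟩
  · rw [← h1]; exact hμ.add hν
  · rw [← h2]; exact hμ.mul hν

lemma algQ_of_sq {z T D : ℂ} (hT : IsAlgebraic ℚ T) (hD : IsAlgebraic ℚ D)
    (h : z ^ 2 - T * z + D = 0) : IsAlgebraic ℚ z := by
  have h4 : IsAlgebraic ℚ (4 : ℂ) := by
    have := isAlgebraic_algebraMap (R := ℚ) (A := ℂ) (4 : ℚ)
    simpa using this
  have h2 : IsAlgebraic ℚ (2 : ℂ) := by
    have := isAlgebraic_algebraMap (R := ℚ) (A := ℂ) (2 : ℚ)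
    simpa using this
  have h5 : IsAlgebraic ℚ (2 * z - T) := by
    apply IsAlgebraic.of_pow (n := 2) (by norm_num)
    have e : (2 * z - T) ^ 2 = T ^ 2 - 4 * D := by linear_combination 4 * h
    rw [e]
    exact (hT.pow 2).sub (h4.mul hD)
  have e : z = ((2 * z - T) + T) * 2⁻¹ := by ring
  rw [e]
  exact (h5.add hT).mul h2.inv

/-- A root of an algebraic matrix has algebraic trace and determinant. -/
lemma tr_det_of_pow {B : Matrix (Fin 2) (Fin 2) ℝ} {m : ℕ} (hm : 0 < m)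
    (h : ∀ i j, (B ^ m) i j ∈ F) : B.trace ∈ F ∧ B.det ∈ F := by
  apply tr_det_of_roots
  intro μ hμ
  have hT : (B ^ m).trace ∈ F := by
    rw [Matrix.trace_fin_two]; exact F.add_mem (h _ _) (h _ _)
  have hD : (B ^ m).det ∈ F := by
    rw [Matrix.det_fin_two]
    exact F.sub_mem (F.mul_mem (h _ _) (h _ _)) (F.mul_mem (h _ _) (h _ _))
  set P := (pq B.trace B.det m).1 with hP
  set Q := (pq B.trace B.det m).2 with hQ
  have hpow := pow_mat B m
  rw [← hP, ← hQ] at hpow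
  have eT : (B ^ m).trace = P * B.trace + 2 * Q := by
    rw [hpow, Matrix.trace_fin_two, Matrix.trace_fin_two]
    simp
    ring
  have eD : (B ^ m).det = P ^ 2 * B.det + P * Q * B.trace + Q ^ 2 := by
    rw [hpow, Matrix.trace_fin_two, Matrix.det_fin_two, Matrix.det_fin_two]
    simp
    ring
  have h1 := pow_root hμ m
  rw [(pq_map B.trace B.det m).1, (pq_map B.trace B.det m).2, ← hP, ← hQ] at h1
  have h2 : IsAlgebraic ℚ (μ ^ m) := by
    refine algQ_of_sq (of_mem_F hT) (of_mem_F hD) ?_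
    rw [h1, eT, eD]
    push_cast
    linear_combination ((P : ℂ) ^ 2) * hμ
  exact h2.of_pow hm

/-- A root of an algebraic matrix which is not scalar is algebraic. -/
lemma root_alg {B : Matrix (Fin 2) (Fin 2) ℝ} {m : ℕ} (hm : 0 < m)
    (h : ∀ i j, (B ^ m) i j ∈ F) (hs : ∀ r : ℝ, B ^ m ≠ r • 1) : ∀ i j, B i j ∈ F := by
  obtain ⟨hτ, hδ⟩ := tr_det_of_pow hm h
  have hpow := pow_mat B m
  obtain ⟨hP, hQ⟩ := pq_F hτ hδ m
  set P := (pq B.trace B.det m).1
  set Q := (pq B.trace B.det m).2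
  have hP0 : P ≠ 0 := by
    intro h0
    apply hs Q
    rw [hpow, h0]
    simp
  intro i j
  have h1 : B i j = ((B ^ m) i j - Q * (1 : Matrix (Fin 2) (Fin 2) ℝ) i j) / P := by
    rw [hpow]
    simp
    field_simp
  rw [h1]
  refine F.div_mem (F.sub_mem (h i j) (F.mul_mem hQ ?_)) hP
  by_cases hij : i = j
  · subst hij; simp [F.one_mem]
  · simp [hij, F.zero_mem]

/-- The matrix is algebraic if a power maps an algebraic vector to another one, not parallel to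
the first, and trace and determinant are algebraic. -/
lemma alg_of_pow_vec {B : Matrix (Fin 2) (Fin 2) ℝ} {n : ℕ} {u v : Fin 2 → ℝ}
    (hu : ∀ i, u i ∈ F) (hv : ∀ i, v i ∈ F) (hτ : B.trace ∈ F) (hδ : B.det ∈ F)
    (h : B ^ n *ᵥ u = v) (huv : u 0 * v 1 - u 1 * v 0 ≠ 0) : ∀ i j, B i j ∈ F := by
  obtain ⟨hP, hQ⟩ := pq_F hτ hδ n
  have hpow := pow_mat B n
  set P := (pq B.trace B.det n).1
  set Q := (pq B.trace B.det n).2
  set g := B *ᵥ u with hg
  have h1 : ∀ i, v i = P * g i + Q * u i := by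
    intro i
    rw [← h, hpow, Matrix.add_mulVec, Matrix.smul_mulVec, Matrix.smul_mulVec, Matrix.one_mulVec,
      ← hg]
    simp only [Pi.add_apply, Pi.smul_apply, smul_eq_mul]
  have hcr : u 0 * v 1 - u 1 * v 0 = P * (u 0 * g 1 - u 1 * g 0) := by
    rw [h1, h1]; ring
  have hP0 : P ≠ 0 := by
    intro h0
    rw [h0, zero_mul] at hcr
    exact huv hcr
  have hD0 : u 0 * g 1 - u 1 * g 0 ≠ 0 := by
    intro h0
    rw [h0, mul_zero] at hcr
    exact huv hcr
  have hgF : ∀ i, g i ∈ F := by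
    intro i
    have : g i = (v i - Q * u i) / P := by rw [h1 i]; field_simp; ring
    rw [this]
    exact F.div_mem (F.sub_mem (hv i) (F.mul_mem hQ (hu i))) hP
  have hg2 : ∀ i, (B *ᵥ g) i = B.trace * g i - B.det * u i := by
    intro i
    have e : B *ᵥ g = B ^ 2 *ᵥ u := by rw [hg, Matrix.mulVec_mulVec, pow_two]
    rw [e, sq_mat, Matrix.sub_mulVec, Matrix.smul_mulVec, Matrix.smul_mulVec, Matrix.one_mulVec,
      ← hg]
    simp only [Pi.sub_apply, Pi.smul_apply, smul_eq_mul]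
  have hk : ∀ i, (B *ᵥ g) i ∈ F := by
    intro i
    rw [hg2 i]
    exact F.sub_mem (F.mul_mem hτ (hgF i)) (F.mul_mem hδ (hu i))
  have ex : ∀ (z : Fin 2 → ℝ) (i : Fin 2), (B *ᵥ z) i = B i 0 * z 0 + B i 1 * z 1 := by
    intro z i
    simp [Matrix.mulVec, dotProduct, Fin.sum_univ_two]
  have hDF : u 0 * g 1 - u 1 * g 0 ∈ F :=
    F.sub_mem (F.mul_mem (hu 0) (hgF 1)) (F.mul_mem (hu 1) (hgF 0))
  intro i j
  have e1 : B i 0 * u 0 + B i 1 * u 1 = g i := by rw [← ex u i]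
  have e2 := ex g i
  fin_cases j
  · have : B i 0 = (g i * g 1 - (B *ᵥ g) i * u 1) / (u 0 * g 1 - u 1 * g 0) := by
      rw [eq_div_iff hD0]
      linear_combination g 1 * e1 + u 1 * e2
    simp only [Fin.zero_eta]
    rw [this]
    exact F.div_mem (F.sub_mem (F.mul_mem (hgF i) (hgF 1)) (F.mul_mem (hk i) (hu 1))) hDF
  · have : B i 1 = ((B *ᵥ g) i * u 0 - g i * g 0) / (u 0 * g 1 - u 1 * g 0) := by
      rw [eq_div_iff hD0]
      linear_combination -g 0 * e1 - u 0 * e2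
    simp only [Fin.mk_one]
    rw [this]
    exact F.div_mem (F.sub_mem (F.mul_mem (hk i) (hu 0)) (F.mul_mem (hgF i) (hgF 0))) hDF

end Pool.Agent.Helper71.TA
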