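import Pool.Agent.Helper71.TA.Alg
import Pool.Agent.Helper56.WV.Top

/-!
# Project TA (MP_d629b1_an): three lattices which meet pairwise, dimension two

Let `A` be a real `2 x 2` matrix no power of which is rational. If three of the lattices
`B ^ j ℤ²` meet pairwise, but have no common nonzero vector, then all entries of `A` are algebraic.
-/

set_option autoImplicit false

open scoped Matrix

noncomputable section

namespace Pool.Agent.Helper71.TA

/-- cross product -/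
def cr (v w : Fin 2 → ℝ) : ℝ := v 0 * w 1 - v 1 * w 0

/-- integer vectors -/
def zc (x : Fin 2 → ℤ) : Fin 2 → ℝ := fun i => (x i : ℝ)

/-- rational matrices -/
def RatM (M : Matrix (Fin 2) (Fin 2) ℝ) : Prop :=
  ∃ R : Matrix (Fin 2) (Fin 2) ℚ, M = R.map (algebraMap ℚ ℝ)

lemma mv (M : Matrix (Fin 2) (Fin 2) ℝ) (z : Fin 2 → ℝ) (i : Fin 2) :
    (M *ᵥ z) i = M i 0 * z 0 + M i 1 * z 1 := by
  simp [Matrix.mulVec, dotProduct, Fin.sum_univ_two]

lemma ratM_of {M : Matrix (Fin 2) (Fin 2) ℝ} (h : ∀ i j, ∃ q : ℚ, M i j = q) : RatM M := by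
  choose f hf using h
  exact ⟨Matrix.of f, by ext i j; simp [hf i j]⟩

/-- The matrix is rational if it maps two independent integer vectors to rational ones. -/
lemma ratM_of_vec {M : Matrix (Fin 2) (Fin 2) ℝ} {u v x y : Fin 2 → ℚ}
    (hu : M *ᵥ (fun i => (u i : ℝ)) = fun i => (x i : ℝ))
    (hv : M *ᵥ (fun i => (v i : ℝ)) = fun i => (y i : ℝ)) (h : u 0 * v 1 - u 1 * v 0 ≠ 0) :
    RatM M := by
  apply ratM_of
  intro i j
  have hD : ((u 0 : ℝ) * v 1 - u 1 * v 0) ≠ 0 := by exact_mod_cast h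
  have e1 : M i 0 * u 0 + M i 1 * u 1 = x i := by
    have := congrFun hu i
    rwa [mv] at this
  have e2 : M i 0 * v 0 + M i 1 * v 1 = y i := by
    have := congrFun hv i
    rwa [mv] at this
  fin_cases j
  · refine ⟨(x i * v 1 - y i * u 1) / (u 0 * v 1 - u 1 * v 0), ?_⟩
    change M i 0 = _
    push_cast
    rw [eq_div_iff hD]
    linear_combination (v 1 : ℝ) * e1 - (u 1 : ℝ) * e2
  · refine ⟨(y i * u 0 - x i * v 0) / (u 0 * v 1 - u 1 * v 0), ?_⟩
    change M i 1 = _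
    push_cast
    rw [eq_div_iff hD]
    linear_combination (u 0 : ℝ) * e2 - (v 0 : ℝ) * e1

/-- A scalar power which maps a nonzero integer vector to an integer vector is rational. -/
lemma ratM_of_scalar {M : Matrix (Fin 2) (Fin 2) ℝ} {r : ℝ} (h : M = r • 1) {x y : Fin 2 → ℤ}
    (hy : y ≠ 0) (hxy : M *ᵥ zc y = zc x) : RatM M := by
  have hex : ∃ i, y i ≠ 0 := by
    by_contra hcon
    push Not at hcon
    exact hy (funext hcon)
  obtain ⟨k, hk⟩ := hex
  have hk' : (y k : ℝ) ≠ 0 := by exact_mod_cast hk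
  have hr : r = ((x k / y k : ℚ) : ℝ) := by
    have h1 := congrFun hxy k
    rw [h, Matrix.smul_mulVec, Matrix.one_mulVec] at h1
    simp only [Pi.smul_apply, zc, smul_eq_mul] at h1
    push_cast
    rw [eq_div_iff hk']
    exact h1
  apply ratM_of
  intro i j
  rw [h, hr]
  by_cases hij : i = j
  · subst hij
    exact ⟨(x k / y k : ℚ), by simp⟩
  · exact ⟨0, by simp [hij]⟩

/-- Case 1 in coordinates: the basis is `u1, u2`. -/
lemma case1_coord {X Y : Matrix (Fin 2) (Fin 2) ℝ} (hc : X * Y = Y * X) (hY : ¬ RatM Y)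
    {x y p q : Fin 2 → ℚ} (hX0 : ∀ i, X i 0 = x i) (hY1 : ∀ i, Y i 1 = y i)
    (hpq : X *ᵥ (fun i => (p i : ℝ)) = Y *ᵥ (fun i => (q i : ℝ))) (hq : q 0 ≠ 0) :
    ∀ i j, X i j ∈ F := by
  have hq' : (q 0 : ℝ) ≠ 0 := by exact_mod_cast hq
  set ρ : ℚ := p 1 / q 0 with hρ
  set α : Fin 2 → ℚ := fun i => (x i * p 0 - y i * q 1) / q 0 with hα
  have hY0 : ∀ i, Y i 0 = (α i : ℝ) + ρ * X i 1 := by
    intro i
    have h1 := congrFun hpq i
    rw [mv, mv, hX0, hY1] at h1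
    rw [hα, hρ]
    push_cast
    field_simp
    linear_combination -h1
  have hρ0 : ρ ≠ 0 := by
    intro h0
    apply hY
    apply ratM_of
    intro i j
    fin_cases j
    · refine ⟨α i, ?_⟩
      simp only [Fin.zero_eta]
      rw [hY0 i, h0]
      simp
    · exact ⟨y i, hY1 i⟩
  have e (i j : Fin 2) : X i 0 * Y 0 j + X i 1 * Y 1 j = Y i 0 * X 0 j + Y i 1 * X 1 j := by
    have := congrFun (congrFun hc i) j
    simpa [Matrix.mul_apply, Fin.sum_univ_two] using this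
  have e00 := e 0 0
  have e01 := e 0 1
  have e10 := e 1 0
  simp only [hX0, hY1, hY0] at e00 e01 e10
  obtain ⟨hs, ht⟩ := alg3 (s := X 0 1) (t := X 1 1) (ρ := ρ)
    (a0 := x 0 * y 0) (a1 := y 1 - α 0) (a2 := -y 0)
    (b0 := y 0 * x 1) (b1 := -α 1) (b2 := 0)
    (c0 := x 1 * y 1 + x 0 * α 1 - x 1 * α 0) (c1 := -(x 1 * ρ)) (c2 := x 0 * ρ - α 1) hρ0
    (by push_cast; linear_combination -e01)
    (by push_cast; linear_combination e00)
    (by push_cast; linear_combination e10)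
  intro i j
  fin_cases j
  · simp only [Fin.zero_eta]
    rw [hX0 i]
    exact ratF _
  · fin_cases i
    · exact hs
    · exact ht

/-- Case 1. -/
lemma case1 {X Y : Matrix (Fin 2) (Fin 2) ℝ} (hc : X * Y = Y * X) (hY : ¬ RatM Y)
    {x1 y1 x2 y2 p q : Fin 2 → ℤ} (h1 : X *ᵥ zc y1 = zc x1) (h2 : Y *ᵥ zc y2 = zc x2)
    (hpq : X *ᵥ zc p = Y *ᵥ zc q) (hy : cr (zc y1) (zc y2) ≠ 0) (hq : cr (zc y2) (zc q) ≠ 0) :
    ∀ i j, X i j ∈ F := by
  set D : ℚ := (y1 0 : ℚ) * y2 1 - y1 1 * y2 0 with hD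
  have hD0 : D ≠ 0 := by
    intro h0
    apply hy
    have : (D : ℝ) = cr (zc y1) (zc y2) := by simp [hD, cr, zc]
    rw [← this, h0, Rat.cast_zero]
  -- the base change and its inverse
  set P : Matrix (Fin 2) (Fin 2) ℚ := !![(y1 0 : ℚ), y2 0; y1 1, y2 1] with hP
  have hPdet : P.det = D := by rw [hP, Matrix.det_fin_two_of, hD]; ring
  have hPu : IsUnit P.det := by rw [hPdet]; exact isUnit_iff_ne_zero.2 hD0
  set φ := (algebraMap ℚ ℝ) with hφ
  set R := P.map φ with hR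
  set S := P⁻¹.map φ with hS
  have hRS : R * S = 1 := by
    rw [hR, hS, ← Matrix.map_mul, Matrix.mul_nonsing_inv _ hPu]
    simp
  have hSR : S * R = 1 := by
    rw [hR, hS, ← Matrix.map_mul, Matrix.nonsing_inv_mul _ hPu]
    simp
  have hSv : ∀ z : Fin 2 → ℚ, S *ᵥ (fun i => (z i : ℝ)) = fun i => (((P⁻¹ *ᵥ z) i : ℚ) : ℝ) := by
    intro z
    ext i
    rw [mv, hS]
    simp [Matrix.mulVec, dotProduct, Fin.sum_univ_two, hφ]
  have hzc : ∀ z : Fin 2 → ℤ, zc z = fun i => (((fun k => (z k : ℚ)) i : ℚ) : ℝ) := by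
    intro z
    ext i
    simp [zc]
  have hRe : ∀ z : Fin 2 → ℤ, zc z = R *ᵥ (fun i => (((P⁻¹ *ᵥ (fun k => (z k : ℚ))) i : ℚ) : ℝ)) := by
    intro z
    rw [← hSv, Matrix.mulVec_mulVec, hRS, Matrix.one_mulVec, ← hzc]
  have hR0 : R *ᵥ (Pi.single 0 1) = zc y1 := by
    ext i
    fin_cases i <;> simp [hR, hP, zc, hφ]
  have hR1 : R *ᵥ (Pi.single 1 1) = zc y2 := by
    ext i
    fin_cases i <;> simp [hR, hP, zc, hφ]
  set X' := S * X * R with hX'
  set Y' := S * Y * R with hY'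
  have hXe : X = R * X' * S := by
    rw [hX']
    calc X = 1 * X * 1 := by rw [one_mul, mul_one]
      _ = (R * S) * X * (R * S) := by rw [hRS]
      _ = R * (S * X * R) * S := by noncomm_ring
  have hYe : Y = R * Y' * S := by
    rw [hY']
    calc Y = 1 * Y * 1 := by rw [one_mul, mul_one]
      _ = (R * S) * Y * (R * S) := by rw [hRS]
      _ = R * (S * Y * R) * S := by noncomm_ring
  have hc' : X' * Y' = Y' * X' := by
    have e1 : X' * Y' = S * (X * Y) * R := by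
      calc X' * Y' = S * X * (R * S) * Y * R := by rw [hX', hY']; noncomm_ring
        _ = S * (X * Y) * R := by rw [hRS]; noncomm_ring
    have e2 : Y' * X' = S * (Y * X) * R := by
      calc Y' * X' = S * Y * (R * S) * X * R := by rw [hX', hY']; noncomm_ring
        _ = S * (Y * X) * R := by rw [hRS]; noncomm_ring
    rw [e1, e2, hc]
  have hY'r : ¬ RatM Y' := by
    rintro ⟨T, hT⟩
    apply hY
    refine ⟨P * T * P⁻¹, ?_⟩
    rw [hYe, hT, Matrix.map_mul, Matrix.map_mul]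
  have hcol0 : ∀ i, X' i 0 = (((P⁻¹ *ᵥ (fun k => (x1 k : ℚ))) i : ℚ) : ℝ) := by
    intro i
    have e1 : X' *ᵥ (Pi.single 0 1) = S *ᵥ zc x1 := by
      rw [hX', ← Matrix.mulVec_mulVec, hR0, ← Matrix.mulVec_mulVec, h1]
    rw [hzc, hSv] at e1
    have e2 := congrFun e1 i
    rw [← e2]
    simp
  have hcol1 : ∀ i, Y' i 1 = (((P⁻¹ *ᵥ (fun k => (x2 k : ℚ))) i : ℚ) : ℝ) := by
    intro i
    have e1 : Y' *ᵥ (Pi.single 1 1) = S *ᵥ zc x2 := by
      rw [hY', ← Matrix.mulVec_mulVec, hR1, ← Matrix.mulVec_mulVec, h2]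
    rw [hzc, hSv] at e1
    have e2 := congrFun e1 i
    rw [← e2]
    simp
  have hpq' : X' *ᵥ (fun i => (((P⁻¹ *ᵥ (fun k => (p k : ℚ))) i : ℚ) : ℝ)) =
      Y' *ᵥ (fun i => (((P⁻¹ *ᵥ (fun k => (q k : ℚ))) i : ℚ) : ℝ)) := by
    rw [hX', hY']
    rw [← Matrix.mulVec_mulVec, ← hRe, ← Matrix.mulVec_mulVec, hpq, Matrix.mulVec_mulVec, hRe q,
      Matrix.mulVec_mulVec]
  have hq0 : (P⁻¹ *ᵥ (fun k => (q k : ℚ))) 0 ≠ 0 := by
    intro h0
    apply hq
    have e1 := hRe q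
    have e2 : ∀ i, zc q i = R i 1 * (((P⁻¹ *ᵥ (fun k => (q k : ℚ))) 1 : ℚ) : ℝ) := by
      intro i
      have := congrFun e1 i
      rw [mv, h0] at this
      rw [this]
      simp
    have e3 : ∀ i, R i 1 = zc y2 i := by
      intro i
      rw [← hR1]
      simp
    rw [cr, e2, e2, e3, e3]
    ring
  have hfin := case1_coord hc' hY'r hcol0 hcol1 hpq' hq0
  have hRF : ∀ i j, R i j ∈ F := fun i j => ratF _
  have hSF : ∀ i j, S i j ∈ F := fun i j => ratF _
  intro i j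
  rw [hXe]
  simp only [Matrix.mul_apply, Fin.sum_univ_two]
  exact F.add_mem
    (F.mul_mem (F.add_mem (F.mul_mem (hRF _ _) (hfin _ _)) (F.mul_mem (hRF _ _) (hfin _ _)))
      (hSF _ _))
    (F.mul_mem (F.add_mem (F.mul_mem (hRF _ _) (hfin _ _)) (F.mul_mem (hRF _ _) (hfin _ _)))
      (hSF _ _))

/-- The inverse of an algebraic matrix is algebraic. -/
lemma inv_F {M : Matrix (Fin 2) (Fin 2) ℝ} (h : ∀ i j, M i j ∈ F) : ∀ i j, M⁻¹ i j ∈ F := by
  have hD : M.det ∈ F := by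
    rw [Matrix.det_fin_two]
    exact F.sub_mem (F.mul_mem (h _ _) (h _ _)) (F.mul_mem (h _ _) (h _ _))
  intro i j
  rw [Matrix.inv_def, Matrix.adjugate_fin_two, Ring.inverse_eq_inv']
  fin_cases i <;> fin_cases j <;> simp <;> exact F.mul_mem (F.inv_mem hD) (h _ _)

/-- From a power with integer exponent. -/
lemma root_alg_int {B : Matrix (Fin 2) (Fin 2) ℝ} (hB : B.det ≠ 0) {m : ℤ} (hm : m ≠ 0)
    (h : ∀ i j, (B ^ m) i j ∈ F) (hs : ∀ r : ℝ, B ^ m ≠ r • 1) : ∀ i j, B i j ∈ F := by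
  have hu : IsUnit B.det := isUnit_iff_ne_zero.2 hB
  obtain ⟨n, rfl | rfl⟩ := m.eq_nat_or_neg
  · rw [zpow_natCast] at h
    refine root_alg (m := n) (by omega) h fun r hr => hs r ?_
    rw [zpow_natCast, hr]
  · rw [Matrix.zpow_neg_natCast] at h
    have h1 : ∀ i j, (B ^ n) i j ∈ F := by
      have hu2 : IsUnit (B ^ n).det := by rw [Matrix.det_pow]; exact hu.pow n
      have := inv_F h
      rwa [Matrix.nonsing_inv_nonsing_inv _ hu2] at this
    refine root_alg (m := n) (by omega) h1 fun r hr => hs r⁻¹ ?_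
    have hr0 : r ≠ 0 := by
      rintro rfl
      have : (B ^ n).det = 0 := by rw [hr]; simp
      rw [Matrix.det_pow] at this
      exact hB ((pow_eq_zero_iff (by omega)).1 this)
    rw [Matrix.zpow_neg_natCast, hr]
    apply Matrix.inv_eq_right_inv
    rw [smul_mul_smul_comm, one_mul, mul_inv_cancel₀ hr0, one_smul]

end Pool.Agent.Helper71.TA
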