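import Pool.Agent.Helper71.TA.Core

/-!
# Project TA (MP_d629b1_an): the matrix is algebraic

`three`: dimension two, no power of `A` is rational, three of the lattices `B ^ j ℤ²` meet
pairwise but have no common nonzero vector: all entries of `A` are algebraic.
`algebraic_of_wavelet`: the same conclusion if there is a well-localized orthonormal wavelet.
-/

set_option autoImplicit false

open scoped Matrix
open Pool.Agent.Helper56.WV Wav

noncomputable section

namespace Pool.Agent.Helper71.TA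

lemma zpow_eigen {B : Matrix (Fin 2) (Fin 2) ℝ} (hB : B.det ≠ 0) {e : Fin 2 → ℝ} (he : e ≠ 0)
    {κ : ℝ} (h : B *ᵥ e = κ • e) (k : ℤ) : ∃ c : ℝ, B ^ k *ᵥ e = c • e := by
  have hnat : ∀ n : ℕ, B ^ n *ᵥ e = κ ^ n • e := by
    intro n
    induction n with
    | zero => simp
    | succ n ih =>
      rw [pow_succ, ← Matrix.mulVec_mulVec, h, Matrix.mulVec_smul, ih, smul_smul, pow_succ,
        mul_comm]
  have hu : IsUnit B.det := isUnit_iff_ne_zero.2 hB
  obtain ⟨n, rfl | rfl⟩ := k.eq_nat_or_neg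
  · exact ⟨κ ^ n, by rw [zpow_natCast, hnat]⟩
  · have hun : IsUnit (B ^ n).det := by rw [Matrix.det_pow]; exact hu.pow n
    have h1 : (B ^ n)⁻¹ *ᵥ (B ^ n *ᵥ e) = e := by
      rw [Matrix.mulVec_mulVec, Matrix.nonsing_inv_mul _ hun, Matrix.one_mulVec]
    rw [hnat, Matrix.mulVec_smul] at h1
    have hc : κ ^ n ≠ 0 := by
      intro h0
      rw [h0, zero_smul] at h1
      exact he h1.symm
    refine ⟨(κ ^ n)⁻¹, ?_⟩
    rw [Matrix.zpow_neg_natCast, eq_inv_smul_iff₀ hc]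
    exact h1

lemma eq_smul_of_cr {e v : Fin 2 → ℝ} (he : e ≠ 0) (h : cr e v = 0) : ∃ κ : ℝ, v = κ • e := by
  rw [cr] at h
  have hex : ∃ i, e i ≠ 0 := by
    by_contra hcon
    push Not at hcon
    exact he (funext hcon)
  obtain ⟨i, hi⟩ := hex
  refine ⟨v i / e i, ?_⟩
  ext j
  simp only [Pi.smul_apply, smul_eq_mul]
  fin_cases i <;> fin_cases j
  · simp only [Fin.zero_eta] at *; field_simp
  · simp only [Fin.zero_eta, Fin.mk_one] at *
    field_simp
    linear_combination h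
  · simp only [Fin.zero_eta, Fin.mk_one] at *
    field_simp
    linear_combination -h
  · simp only [Fin.mk_one] at *; field_simp

lemma zero_of_vec {N : Matrix (Fin 2) (Fin 2) ℝ} {u v : Fin 2 → ℝ} (hu : N *ᵥ u = 0)
    (hv : N *ᵥ v = 0) (h : cr u v ≠ 0) : N = 0 := by
  rw [cr] at h
  ext i j
  have e1 : N i 0 * u 0 + N i 1 * u 1 = 0 := by
    have := congrFun hu i
    rwa [mv] at this
  have e2 : N i 0 * v 0 + N i 1 * v 1 = 0 := by
    have := congrFun hv i
    rwa [mv] at this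
  fin_cases j
  · have : N i 0 * (u 0 * v 1 - u 1 * v 0) = 0 := by
      linear_combination v 1 * e1 - u 1 * e2
    exact (mul_eq_zero.1 this).resolve_right h
  · have : N i 1 * (u 0 * v 1 - u 1 * v 0) = 0 := by
      linear_combination u 0 * e2 - v 0 * e1
    exact (mul_eq_zero.1 this).resolve_right h

/-- A matrix which commutes with `B` and kills `e` is zero if `e` is not an eigenvector of `B`. -/
lemma zero_of_comm {B N : Matrix (Fin 2) (Fin 2) ℝ} (hc : Commute B N) {e : Fin 2 → ℝ}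
    (he : cr e (B *ᵥ e) ≠ 0) (h : N *ᵥ e = 0) : N = 0 := by
  refine zero_of_vec h ?_ he
  rw [Matrix.mulVec_mulVec, ← hc.eq, ← Matrix.mulVec_mulVec, h, Matrix.mulVec_zero]

/-- Case 2. -/
lemma case2 {B : Matrix (Fin 2) (Fin 2) ℝ} (hB : B.det ≠ 0) {β γ : ℤ} (hβ : β ≠ 0) (hγ : γ ≠ 0)
    (hβγ : β ≠ γ) (hr : ¬ RatM (B ^ β)) {e w1 w2 : Fin 2 → ℤ} (h1 : B ^ β *ᵥ zc e = zc w1)
    (h2 : B ^ γ *ᵥ zc e = zc w2) (hw : cr (zc w1) (zc w2) ≠ 0) : ∀ i j, B i j ∈ F := by
  have hu : IsUnit B.det := isUnit_iff_ne_zero.2 hB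
  have he0 : e ≠ 0 := by
    rintro rfl
    have hz : zc 0 = 0 := by ext i; simp [zc]
    rw [hz, Matrix.mulVec_zero] at h1
    apply hw
    rw [← h1]
    simp [cr]
  have he : zc e ≠ 0 := by
    intro h
    apply he0
    ext i
    have := congrFun h i
    simpa [zc] using this
  have hcr : cr (zc e) (B *ᵥ zc e) ≠ 0 := by
    intro h0
    obtain ⟨κ, hκ⟩ := eq_smul_of_cr he h0
    obtain ⟨c1, hc1⟩ := zpow_eigen hB he hκ β
    obtain ⟨c2, hc2⟩ := zpow_eigen hB he hκ γ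
    apply hw
    rw [← h1, ← h2, hc1, hc2]
    simp only [cr, Pi.smul_apply, smul_eq_mul]
    ring
  set d0 : ℤ := w1 0 * w2 1 - w1 1 * w2 0 with hd0
  set d1 : ℤ := w2 0 * e 1 - w2 1 * e 0 with hd1
  set d2 : ℤ := e 0 * w1 1 - e 1 * w1 0 with hd2
  have hd00 : d0 ≠ 0 := by
    intro h0
    apply hw
    have : (d0 : ℝ) = cr (zc w1) (zc w2) := by simp [hd0, cr, zc]
    rw [← this, h0, Int.cast_zero]
  have hcβ : Commute B (B ^ β) := Matrix.Commute.self_zpow B β
  have hcγ : Commute B (B ^ γ) := Matrix.Commute.self_zpow B γ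
  have hN : (d0 : ℝ) • (1 : Matrix (Fin 2) (Fin 2) ℝ) + (d1 : ℝ) • B ^ β + (d2 : ℝ) • B ^ γ = 0 := by
    refine zero_of_comm (B := B) (e := zc e) ?_ hcr ?_
    · exact (((Commute.one_right B).smul_right _).add_right (hcβ.smul_right _)).add_right
        (hcγ.smul_right _)
    · rw [Matrix.add_mulVec, Matrix.add_mulVec, Matrix.smul_mulVec, Matrix.smul_mulVec,
        Matrix.smul_mulVec, Matrix.one_mulVec, h1, h2]
      ext i
      simp only [Pi.add_apply, Pi.smul_apply, smul_eq_mul, zc, hd0, hd1, hd2, Pi.zero_apply]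
      push_cast
      fin_cases i
      · simp only [Fin.zero_eta]; ring
      · simp only [Fin.mk_one]; ring
  -- natural exponents
  obtain ⟨n0, n1, n2, hn01, hn02, hn⟩ : ∃ n0 n1 n2 : ℕ, n0 ≠ n1 ∧ n0 ≠ n2 ∧
      (d0 : ℝ) • B ^ n0 + (d1 : ℝ) • B ^ n1 + (d2 : ℝ) • B ^ n2 = 0 := by
    obtain ⟨M, hM1, hM2⟩ : ∃ M : ℕ, 0 ≤ (M : ℤ) + β ∧ 0 ≤ (M : ℤ) + γ :=
      ⟨β.natAbs + γ.natAbs, by omega, by omega⟩
    obtain ⟨n1, hn1⟩ := Int.eq_ofNat_of_zero_le hM1
    obtain ⟨n2, hn2⟩ := Int.eq_ofNat_of_zero_le hM2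
    refine ⟨M, n1, n2, by omega, by omega, ?_⟩
    have e1 : B ^ n1 = B ^ M * B ^ β := by
      rw [← zpow_natCast B n1, ← zpow_natCast B M, ← Matrix.zpow_add hu, hn1]
    have e2 : B ^ n2 = B ^ M * B ^ γ := by
      rw [← zpow_natCast B n2, ← zpow_natCast B M, ← Matrix.zpow_add hu, hn2]
    have h3 : B ^ M * ((d0 : ℝ) • (1 : Matrix (Fin 2) (Fin 2) ℝ) + (d1 : ℝ) • B ^ β +
        (d2 : ℝ) • B ^ γ) = 0 := by rw [hN, mul_zero]
    rw [mul_add, mul_add, mul_smul_comm, mul_smul_comm, mul_smul_comm, mul_one] at h3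
    rw [e1, e2]
    exact h3
  have hroots : ∀ μ : ℂ, μ ^ 2 = B.trace * μ - B.det → IsAlgebraic ℚ μ := by
    intro μ hμ
    set P0 := (pq B.trace B.det n0).1
    set P1 := (pq B.trace B.det n1).1
    set P2 := (pq B.trace B.det n2).1
    set Q0 := (pq B.trace B.det n0).2
    set Q1 := (pq B.trace B.det n1).2
    set Q2 := (pq B.trace B.det n2).2
    have hPQ : ((d0 : ℝ) * P0 + d1 * P1 + d2 * P2) • B +
        ((d0 : ℝ) * Q0 + d1 * Q1 + d2 * Q2) • (1 : Matrix (Fin 2) (Fin 2) ℝ) = 0 := by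
      rw [← hn, pow_mat B n0, pow_mat B n1, pow_mat B n2]
      simp only [smul_add, smul_smul, add_smul]
      abel
    have hPf : (d0 : ℝ) * P0 + d1 * P1 + d2 * P2 = 0 := by
      by_contra hne
      set Pf := (d0 : ℝ) * P0 + d1 * P1 + d2 * P2
      set Qf := (d0 : ℝ) * Q0 + d1 * Q1 + d2 * Q2
      have h3 : B = (-(Qf / Pf)) • (1 : Matrix (Fin 2) (Fin 2) ℝ) := by
        have h4 : Pf • B = (-Qf) • (1 : Matrix (Fin 2) (Fin 2) ℝ) := by
          rw [neg_smul]; exact eq_neg_of_add_eq_zero_left hPQ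
        have h5 : B = Pf⁻¹ • (Pf • B) := by rw [smul_smul, inv_mul_cancel₀ hne, one_smul]
        rw [h5, h4, smul_smul]
        congr 1
        field_simp
      apply hcr
      rw [h3, Matrix.smul_mulVec, Matrix.one_mulVec]
      simp only [cr, Pi.smul_apply, smul_eq_mul]
      ring
    have hQf : (d0 : ℝ) * Q0 + d1 * Q1 + d2 * Q2 = 0 := by
      rw [hPf, zero_smul, zero_add] at hPQ
      have := congrFun (congrFun hPQ 0) 0
      simpa using this
    have hμ0 : (d0 : ℂ) * μ ^ n0 + d1 * μ ^ n1 + d2 * μ ^ n2 = 0 := by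
      rw [pow_root hμ n0, pow_root hμ n1, pow_root hμ n2, (pq_map _ _ _).1, (pq_map _ _ _).1,
        (pq_map _ _ _).1, (pq_map _ _ _).2, (pq_map _ _ _).2, (pq_map _ _ _).2]
      have hPf' := congrArg (fun x : ℝ => (x : ℂ)) hPf
      have hQf' := congrArg (fun x : ℝ => (x : ℂ)) hQf
      push_cast at hPf' hQf'
      linear_combination μ * hPf' + hQf'
    refine ⟨Polynomial.C (d0 : ℚ) * Polynomial.X ^ n0 + Polynomial.C (d1 : ℚ) * Polynomial.X ^ n1 +
      Polynomial.C (d2 : ℚ) * Polynomial.X ^ n2, ?_, ?_⟩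
    · intro h0
      have h3 := congrArg (fun f : Polynomial ℚ => f.coeff n0) h0
      simp only [Polynomial.coeff_add, Polynomial.coeff_C_mul, Polynomial.coeff_X_pow,
        Polynomial.coeff_zero, hn01, hn02, if_true, if_false, mul_one, mul_zero, add_zero] at h3
      exact hd00 (by exact_mod_cast h3)
    · simp only [map_add, map_mul, map_pow, Polynomial.aeval_X, Polynomial.aeval_C]
      rw [← hμ0]
      simp
  obtain ⟨hτ, hδ⟩ := tr_det_of_roots hroots
  have hew : cr (zc e) (zc w1) ≠ 0 := by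
    intro h0
    obtain ⟨r, hr1⟩ := eq_smul_of_cr he h0
    have h3 : B ^ β - r • 1 = 0 := by
      refine zero_of_comm (B := B) (e := zc e) ?_ hcr ?_
      · exact hcβ.sub_right ((Commute.one_right B).smul_right _)
      · rw [Matrix.sub_mulVec, h1, Matrix.smul_mulVec, Matrix.one_mulVec, hr1, sub_self]
    exact hr (ratM_of_scalar (sub_eq_zero.1 h3) he0 h1)
  have hzF : ∀ (z : Fin 2 → ℤ) i, zc z i ∈ F := fun z i => intF _
  obtain ⟨n, rfl | rfl⟩ := β.eq_nat_or_neg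
  · rw [zpow_natCast] at h1
    exact alg_of_pow_vec (hzF e) (hzF w1) hτ hδ h1 hew
  · have hun : IsUnit (B ^ n).det := by rw [Matrix.det_pow]; exact hu.pow n
    rw [Matrix.zpow_neg_natCast] at h1
    have h3 : B ^ n *ᵥ zc w1 = zc e := by
      rw [← h1, Matrix.mulVec_mulVec, Matrix.mul_nonsing_inv _ hun, Matrix.one_mulVec]
    refine alg_of_pow_vec (hzF w1) (hzF e) hτ hδ h3 ?_
    intro h0
    apply hew
    rw [cr]
    linarith

/-- Two parallel nonzero integer vectors have a common multiple. -/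
lemma common {y z : Fin 2 → ℤ} (hy : y ≠ 0) (hz : z ≠ 0) (h : cr (zc y) (zc z) = 0) :
    ∃ m n : ℤ, m ≠ 0 ∧ n ≠ 0 ∧ m • y = n • z := by
  have h' : y 0 * z 1 - y 1 * z 0 = 0 := by
    have : ((y 0 * z 1 - y 1 * z 0 : ℤ) : ℝ) = 0 := by
      push_cast
      exact h
    exact_mod_cast this
  by_cases hz0 : z 0 = 0
  · have hz1 : z 1 ≠ 0 := by
      intro h1
      apply hz
      ext i
      fin_cases i
      · exact hz0
      · exact h1
    have hy0 : y 0 = 0 := by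
      rw [hz0, mul_zero, sub_zero] at h'
      exact (mul_eq_zero.1 h').resolve_right hz1
    have hy1 : y 1 ≠ 0 := by
      intro h1
      apply hy
      ext i
      fin_cases i
      · exact hy0
      · exact h1
    refine ⟨z 1, y 1, hz1, hy1, ?_⟩
    ext i
    fin_cases i
    · simp [hy0, hz0]
    · simp only [Fin.mk_one, Pi.smul_apply, smul_eq_mul]
      ring
  · have hy0 : y 0 ≠ 0 := by
      intro h1
      rw [h1, zero_mul, zero_sub, neg_eq_zero] at h'
      have hy1 : y 1 = 0 := (mul_eq_zero.1 h').resolve_right hz0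
      apply hy
      ext i
      fin_cases i
      · exact h1
      · exact hy1
    refine ⟨z 0, y 0, hz0, hy0, ?_⟩
    ext i
    fin_cases i
    · simp only [Fin.zero_eta, Pi.smul_apply, smul_eq_mul]
      ring
    · simp only [Fin.mk_one, Pi.smul_apply, smul_eq_mul]
      linarith

lemma zc_smul (m : ℤ) (y : Fin 2 → ℤ) : zc (m • y) = (m : ℝ) • zc y := by
  ext i
  simp [zc]

/-- In terms of the matrix `B` only. -/
theorem three_core {B : Matrix (Fin 2) (Fin 2) ℝ} (hB : B.det ≠ 0)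
    (hr : ∀ m : ℤ, m ≠ 0 → ¬ RatM (B ^ m)) {β γ : ℤ} (hβ : β ≠ 0) (hγ : γ ≠ 0) (hβγ : β ≠ γ)
    {x1 y1 x2 y2 p q : Fin 2 → ℤ} (h1 : B ^ β *ᵥ zc y1 = zc x1) (h2 : B ^ γ *ᵥ zc y2 = zc x2)
    (hpq : B ^ β *ᵥ zc p = B ^ γ *ᵥ zc q) (hy1 : y1 ≠ 0) (hy2 : y2 ≠ 0)
    (hx : cr (zc x1) (zc x2) ≠ 0) (hq : cr (zc y2) (zc q) ≠ 0) : ∀ i j, B i j ∈ F := by
  by_cases hy : cr (zc y1) (zc y2) = 0
  · obtain ⟨m, n, hm, hn, hmn⟩ := common hy1 hy2 hy
    have e1 : B ^ β *ᵥ zc (m • y1) = zc (m • x1) := by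
      rw [zc_smul, Matrix.mulVec_smul, h1, zc_smul]
    have e2 : B ^ γ *ᵥ zc (m • y1) = zc (n • x2) := by
      rw [hmn, zc_smul, Matrix.mulVec_smul, h2, zc_smul]
    refine case2 hB hβ hγ hβγ (hr β hβ) e1 e2 ?_
    have hm' : (m : ℝ) ≠ 0 := by exact_mod_cast hm
    have hn' : (n : ℝ) ≠ 0 := by exact_mod_cast hn
    have : cr (zc (m • x1)) (zc (n • x2)) = m * n * cr (zc x1) (zc x2) := by
      rw [zc_smul, zc_smul]
      simp only [cr, Pi.smul_apply, smul_eq_mul]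
      ring
    rw [this]
    exact mul_ne_zero (mul_ne_zero hm' hn') hx
  · have hc : B ^ β * B ^ γ = B ^ γ * B ^ β := (Matrix.Commute.zpow_zpow_self B β γ).eq
    have h3 := case1 hc (hr γ hγ) h1 h2 hpq hy hq
    refine root_alg_int hB hβ h3 fun r hr1 => ?_
    exact hr β hβ (ratM_of_scalar hr1 hy1 h1)

/-- Rational powers of the transpose. -/
lemma ratM_pow {A : Matrix (Fin 2) (Fin 2) ℝ} (hA : A.det ≠ 0)
    (hr : ¬ Pool.Agent.Helper54.WavS.HasRationalPower A) (m : ℤ) (hm : m ≠ 0) :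
    ¬ RatM (Aᵀ ^ m) := by
  have key : ∀ n : ℕ, 0 < n → ¬ RatM (Aᵀ ^ n) := by
    rintro n hn ⟨R, hR⟩
    apply hr
    refine ⟨n, Rᵀ, hn, ?_⟩
    have h1 : (A ^ n)ᵀ = R.map (algebraMap ℚ ℝ) := by rw [Matrix.transpose_pow, hR]
    have h2 := congrArg Matrix.transpose h1
    rw [Matrix.transpose_transpose] at h2
    rw [h2]
    rfl
  obtain ⟨n, rfl | rfl⟩ := m.eq_nat_or_neg
  · rw [zpow_natCast]
    exact key n (by omega)
  · rintro ⟨R, hR⟩
    have hu : IsUnit (Aᵀ).det := by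
      rw [Matrix.det_transpose]; exact isUnit_iff_ne_zero.2 hA
    have hun : IsUnit (Aᵀ ^ n).det := by rw [Matrix.det_pow]; exact hu.pow n
    apply key n (by omega)
    rw [Matrix.zpow_neg_natCast] at hR
    have h1 : R.map (algebraMap ℚ ℝ) * Aᵀ ^ n = 1 := by
      rw [← hR, Matrix.nonsing_inv_mul _ hun]
    have hRdet : R.det ≠ 0 := by
      intro h0
      have h2 : (R.map (algebraMap ℚ ℝ)).det = 0 := by
        have h3 : (R.map (algebraMap ℚ ℝ)).det = algebraMap ℚ ℝ R.det := by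
          rw [RingHom.map_det]
          rfl
        rw [h3, h0, map_zero]
      have h4 := congrArg Matrix.det h1
      rw [Matrix.det_mul, h2, zero_mul, Matrix.det_one] at h4
      exact zero_ne_one h4
    refine ⟨R⁻¹, ?_⟩
    have h5 : R⁻¹.map (algebraMap ℚ ℝ) * R.map (algebraMap ℚ ℝ) = 1 := by
      rw [← Matrix.map_mul, Matrix.nonsing_inv_mul _ (isUnit_iff_ne_zero.2 hRdet)]
      simp
    calc Aᵀ ^ n = (R⁻¹.map (algebraMap ℚ ℝ) * R.map (algebraMap ℚ ℝ)) * Aᵀ ^ n := by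
          rw [h5, one_mul]
      _ = R⁻¹.map (algebraMap ℚ ℝ) * (R.map (algebraMap ℚ ℝ) * Aᵀ ^ n) := by rw [mul_assoc]
      _ = R⁻¹.map (algebraMap ℚ ℝ) := by rw [h1, mul_one]

/-- Dimension two: three lattices which meet pairwise but have no common nonzero vector force the
matrix to be algebraic, if none of its powers is rational. -/
theorem three {A : Matrix (Fin 2) (Fin 2) ℝ} (hA : A.det ≠ 0)
    (hr : ¬ Pool.Agent.Helper54.WavS.HasRationalPower A) {a b c : ℤ} (hab : a ≠ b) (hac : a ≠ c)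
    (hbc : b ≠ c) (mab : Meet (Gam A) a b) (mac : Meet (Gam A) a c) (mbc : Meet (Gam A) b c)
    (m3 : ¬ Meet3 (Gam A) a b c) : ∀ i j, IsAlgebraic ℚ (A i j) := by
  set B := Aᵀ with hBdef
  have hB : B.det ≠ 0 := by rw [hBdef, Matrix.det_transpose]; exact hA
  have hu : IsUnit B.det := isUnit_iff_ne_zero.2 hB
  have hg : ∀ (j : ℤ) (x : Fin 2 → ℤ), act (B ^ j) (ivec x) ∈ Gam A j := fun j x => ⟨x, rfl⟩
  have hof : ∀ (j : ℤ) (x : Fin 2 → ℤ), (act (B ^ j) (ivec x)).ofLp = B ^ j *ᵥ zc x :=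
    fun j x => rfl
  have pull : ∀ {i j : ℤ} {x y : Fin 2 → ℤ}, act (B ^ i) (ivec x) = act (B ^ j) (ivec y) →
      B ^ i *ᵥ zc x = B ^ j *ᵥ zc y := by
    intro i j x y h
    rw [← hof, ← hof, h]
  have shift : ∀ {i j k : ℤ} {x y : Fin 2 → ℤ}, B ^ i *ᵥ zc x = B ^ j *ᵥ zc y →
      B ^ (i - k) *ᵥ zc x = B ^ (j - k) *ᵥ zc y := by
    intro i j k x y h
    have h1 : ∀ l, B ^ (l - k) = B ^ (-k) * B ^ l := by
      intro l
      rw [← Matrix.zpow_add hu]
      congr 1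
      ring
    rw [h1, h1, ← Matrix.mulVec_mulVec, ← Matrix.mulVec_mulVec, h]
  have nz : ∀ {j : ℤ} {x : Fin 2 → ℤ}, act (B ^ j) (ivec x) ≠ 0 → x ≠ 0 := by
    rintro j x h rfl
    apply h
    rw [ivec_zero, act_zero]
  have nz' : ∀ {j : ℤ} {x : Fin 2 → ℤ}, x ≠ 0 → act (B ^ j) (ivec x) ≠ 0 := by
    intro j x h h0
    apply h
    have h1 : B ^ j *ᵥ zc x = 0 := by rw [← hof, h0]; rfl
    have h2 : B ^ (-j) *ᵥ (B ^ j *ᵥ zc x) = zc x := by
      rw [Matrix.mulVec_mulVec, ← Matrix.zpow_add hu, neg_add_cancel, zpow_zero,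
        Matrix.one_mulVec]
    rw [h1, Matrix.mulVec_zero] at h2
    ext i
    have := congrFun h2 i
    simpa [zc] using this.symm
  have smul_act : ∀ (j m : ℤ) (x : Fin 2 → ℤ), act (B ^ j) (ivec (m • x)) =
      m • act (B ^ j) (ivec x) := by
    intro j m x
    have e : (act (B ^ j) (ivec (m • x))).ofLp = (m • act (B ^ j) (ivec x)).ofLp := by
      rw [hof, zc_smul, Matrix.mulVec_smul]
      ext i
      simp [← hof]
    exact (WithLp.ofLp_injective 2) e
  obtain ⟨v1, hv1, ⟨x1, hx1⟩, ⟨y1, hy1⟩⟩ := mab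
  obtain ⟨v2, hv2, ⟨x2, hx2⟩, ⟨y2, hy2⟩⟩ := mac
  obtain ⟨v3, hv3, ⟨p, hp⟩, ⟨q, hq⟩⟩ := mbc
  simp only at hx1 hy1 hx2 hy2 hp hq
  have hx1' : act (B ^ a) (ivec x1) = v1 := hx1
  have hy1' : act (B ^ b) (ivec y1) = v1 := hy1
  have hx2' : act (B ^ a) (ivec x2) = v2 := hx2
  have hy2' : act (B ^ c) (ivec y2) = v2 := hy2
  have hp' : act (B ^ b) (ivec p) = v3 := hp
  have hq' : act (B ^ c) (ivec q) = v3 := hq
  have e1 : B ^ (b - a) *ᵥ zc y1 = zc x1 := by
    have := shift (k := a) (pull (hy1'.trans hx1'.symm))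
    rwa [sub_self, zpow_zero, Matrix.one_mulVec] at this
  have e2 : B ^ (c - a) *ᵥ zc y2 = zc x2 := by
    have := shift (k := a) (pull (hy2'.trans hx2'.symm))
    rwa [sub_self, zpow_zero, Matrix.one_mulVec] at this
  have e3 : B ^ (b - a) *ᵥ zc p = B ^ (c - a) *ᵥ zc q :=
    shift (k := a) (pull (hp'.trans hq'.symm))
  have y1n : y1 ≠ 0 := nz (j := b) (by rw [hy1']; exact hv1)
  have y2n : y2 ≠ 0 := nz (j := c) (by rw [hy2']; exact hv2)
  have x1n : x1 ≠ 0 := nz (j := a) (by rw [hx1']; exact hv1)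
  have x2n : x2 ≠ 0 := nz (j := a) (by rw [hx2']; exact hv2)
  have qn : q ≠ 0 := nz (j := c) (by rw [hq']; exact hv3)
  have hxx : cr (zc x1) (zc x2) ≠ 0 := by
    intro h0
    obtain ⟨m, n, hm, hn, hmn⟩ := common x1n x2n h0
    apply m3
    refine ⟨act (B ^ a) (ivec (m • x1)), ?_, hg _ _, ?_, ?_⟩
    · refine nz' ?_
      exact smul_ne_zero hm x1n
    · rw [smul_act, hx1', ← hy1', ← smul_act]
      exact hg _ _
    · rw [hmn, smul_act, hx2', ← hy2', ← smul_act]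
      exact hg _ _
  have hyq : cr (zc y2) (zc q) ≠ 0 := by
    intro h0
    obtain ⟨m, n, hm, hn, hmn⟩ := common y2n qn h0
    apply m3
    refine ⟨act (B ^ c) (ivec (m • y2)), ?_, ?_, ?_, hg _ _⟩
    · refine nz' ?_
      exact smul_ne_zero hm y2n
    · rw [smul_act, hy2', ← hx2', ← smul_act]
      exact hg _ _
    · rw [hmn, smul_act, hq', ← hp', ← smul_act]
      exact hg _ _
  have hfin := three_core hB (fun m hm => ratM_pow hA hr m hm) (β := b - a) (γ := c - a)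
    (sub_ne_zero.2 hab.symm) (sub_ne_zero.2 hac.symm) (by intro h; exact hbc (by linarith))
    e1 e2 e3 y1n y2n hxx hyq
  intro i j
  have := hfin j i
  rw [mem_F, hBdef, Matrix.transpose_apply] at this
  exact this

/-- A tetrahedral configuration forces the matrix to be algebraic. -/
theorem algebraic_of_tetra {A : Matrix (Fin 2) (Fin 2) ℝ} (hA : A.det ≠ 0)
    (hr : ¬ Pool.Agent.Helper54.WavS.HasRationalPower A) (h : Tetra (Gam A)) :
    ∀ i j, IsAlgebraic ℚ (A i j) := by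
  obtain ⟨a, b, c, d, hab, hac, -, hbc, -, -, mab, mac, -, mbc, -, -, m3, -, -⟩ := h
  exact three hA hr hab hac hbc mab mac mbc m3

/-- Dimension two: a matrix without a rational power which admits a well-localized orthonormal
wavelet is algebraic. -/
theorem algebraic_of_wavelet {A : Matrix (Fin 2) (Fin 2) ℝ} (hA : Expansive A)
    (hr : ¬ Pool.Agent.Helper54.WavS.HasRationalPower A) {N : ℝ} (hN : (3 : ℝ) < N)
    (hW : WavN.HasWavelet N A) : ∀ i j, IsAlgebraic ℚ (A i j) :=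
  algebraic_of_tetra (expansive_det hA) hr (tetra_of_two hA hr hN hW)

end Pool.Agent.Helper71.TA
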